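import Pool.Agent.Helper149.Beps.Small

set_option maxHeartbeats 4000000

open Finset

noncomputable section

namespace Pool.Agent.Helper149.Beps

open Pool.Agent.Helper579.Beps

/-- numeric cell lemma -/
theorem cells {m k : ℕ} (p : Fin m → Fin k → ℝ) (B : ℝ) (hp : ∑ j, ∑ i, p j i ^ 2 ≤ B)
    (q : ℕ) (hq : 0 < q) :
    ∃ (κ : ℕ) (J : Fin κ → Finset (Fin m)) (α : Fin m → ℝ), κ ≤ (2 * q + 1) ^ k ∧
      (∀ c d, c ≠ d → Disjoint (J c) (J d)) ∧ (∀ c, ∑ j ∈ J c, α j ^ 2 = 1) ∧
      (∀ g : Fin m → ℝ, (∀ c, ∑ j ∈ J c, α j * g j = 0) →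
        ∑ i, (∑ j, g j * p j i) ^ 2 ≤ (k * B / (q : ℝ) ^ 2) * ∑ j, g j ^ 2) := by
  classical
  have hq0 : (0 : ℝ) < q := by exact_mod_cast hq
  set r : Fin m → ℝ := fun j => Real.sqrt (∑ i, p j i ^ 2) with hr
  have hr0 : ∀ j, 0 ≤ r j := fun j => Real.sqrt_nonneg _
  have hr2 : ∀ j, r j ^ 2 = ∑ i, p j i ^ 2 := fun j =>
    Real.sq_sqrt (Finset.sum_nonneg fun i _ => sq_nonneg _)
  have hpr : ∀ j i, |p j i| ≤ r j := by
    intro j i
    apply Real.abs_le_sqrt
    exact Finset.single_le_sum (f := fun i => p j i ^ 2) (fun i _ => sq_nonneg _)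
      (Finset.mem_univ i)
  set J1 : Finset (Fin m) := Finset.univ.filter (fun j => r j ≠ 0) with hJ1
  have hJ1m : ∀ j, j ∈ J1 ↔ r j ≠ 0 := by intro j; simp [hJ1]
  set col : Fin m → Fin k → ℤ := fun j i => ⌊(q : ℝ) * (p j i / r j)⌋ with hcol
  have hθ : ∀ j ∈ J1, ∀ i, |p j i / r j| ≤ 1 := by
    intro j hj i
    have h1 : 0 < r j := lt_of_le_of_ne (hr0 j) (Ne.symm ((hJ1m j).1 hj))
    rw [abs_div, abs_of_pos h1]
    exact (div_le_one h1).2 (hpr j i)
  set C : Finset (Fin k → ℤ) := J1.image col with hC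
  have hCsub : C ⊆ Fintype.piFinset (fun _ => Finset.Icc (-(q : ℤ)) q) := by
    intro c hc
    obtain ⟨j, hj, rfl⟩ := Finset.mem_image.1 hc
    rw [Fintype.mem_piFinset]
    intro i
    have h1 := abs_le.1 (hθ j hj i)
    rw [Finset.mem_Icc]
    constructor
    · rw [Int.le_floor]
      push_cast
      nlinarith [h1.1]
    · have : (⌊(q : ℝ) * (p j i / r j)⌋ : ℤ) ≤ ⌊(q : ℝ)⌋ := by
        apply Int.floor_le_floor
        nlinarith [h1.2]
      simpa using this
  have hCcard : C.card ≤ (2 * q + 1) ^ k := by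
    refine (Finset.card_le_card hCsub).trans ?_
    rw [Fintype.card_piFinset]
    simp only [Int.card_Icc, Finset.prod_const, Finset.card_univ, Fintype.card_fin]
    apply Nat.pow_le_pow_left
    omega
  let e : C ≃ Fin C.card := C.equivFin
  let cc : Fin C.card → Fin k → ℤ := fun c => (e.symm c : Fin k → ℤ)
  have hccinj : ∀ c d, cc c = cc d → c = d := by
    intro c d h
    exact e.symm.injective (Subtype.ext h)
  have hccmem : ∀ c, cc c ∈ C := fun c => (e.symm c).2
  have hccsurj : ∀ j ∈ J1, ∃ c, cc c = col j := by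
    intro j hj
    refine ⟨e ⟨col j, Finset.mem_image_of_mem _ hj⟩, ?_⟩
    simp [cc]
  let J : Fin C.card → Finset (Fin m) := fun c => J1.filter (fun j => col j = cc c)
  let S : (Fin k → ℤ) → ℝ := fun v => ∑ j ∈ J1.filter (fun j => col j = v), r j ^ 2
  have hS : ∀ c, 0 < S (cc c) := by
    intro c
    obtain ⟨j, hj, hjc⟩ := Finset.mem_image.1 (hccmem c)
    refine Finset.sum_pos' (fun i _ => sq_nonneg _) ⟨j, ?_, ?_⟩
    · rw [Finset.mem_filter]; exact ⟨hj, hjc⟩
    · have := (hJ1m j).1 hj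
      positivity
  let α : Fin m → ℝ := fun j => r j / Real.sqrt (S (col j))
  refine ⟨C.card, J, α, hCcard, ?_, ?_, ?_⟩
  · intro c d hcd
    rw [Finset.disjoint_left]
    intro j hj hj'
    have h1 := (Finset.mem_filter.1 hj).2
    have h2 := (Finset.mem_filter.1 hj').2
    exact hcd (hccinj c d (h1.symm.trans h2))
  · intro c
    have h1 : ∀ j ∈ J c, α j ^ 2 = r j ^ 2 / S (cc c) := by
      intro j hj
      have h2 := (Finset.mem_filter.1 hj).2
      show (r j / Real.sqrt (S (col j))) ^ 2 = _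
      rw [h2, div_pow, Real.sq_sqrt (hS c).le]
    rw [Finset.sum_congr rfl h1, ← Finset.sum_div]
    exact div_self (hS c).ne'
  · intro g hg
    have hg' : ∀ c, ∑ j ∈ J c, r j * g j = 0 := by
      intro c
      have h1 : ∑ j ∈ J c, r j * g j = Real.sqrt (S (cc c)) * ∑ j ∈ J c, α j * g j := by
        rw [Finset.mul_sum]
        refine Finset.sum_congr rfl fun j hj => ?_
        have h2 := (Finset.mem_filter.1 hj).2
        show r j * g j = Real.sqrt (S (cc c)) * (r j / Real.sqrt (S (col j)) * g j)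
        rw [h2]
        have h3 : Real.sqrt (S (cc c)) ≠ 0 := (Real.sqrt_pos.2 (hS c)).ne'
        field_simp
      rw [h1, hg c, mul_zero]
    -- sum over J1 of functions of the colour
    have hzero : ∀ f : (Fin k → ℤ) → ℝ, ∑ j ∈ J1, g j * r j * f (col j) = 0 := by
      intro f
      have h1 : ∑ j ∈ J1, g j * r j * f (col j)
          = ∑ c : Fin C.card, ∑ j ∈ J c, g j * r j * f (col j) := by
        rw [← Finset.sum_biUnion]
        · refine Finset.sum_congr ?_ fun _ _ => rfl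
          ext j
          simp only [Finset.mem_biUnion, Finset.mem_univ, true_and, J, Finset.mem_filter]
          constructor
          · intro hj
            obtain ⟨c, hc⟩ := hccsurj j hj
            exact ⟨c, hj, hc.symm⟩
          · rintro ⟨c, hj, -⟩
            exact hj
        · intro c _ d _ hcd
          show Disjoint (J c) (J d)
          rw [Finset.disjoint_left]
          intro j hj hj'
          have h1 := (Finset.mem_filter.1 hj).2
          have h2 := (Finset.mem_filter.1 hj').2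
          exact hcd (hccinj c d (h1.symm.trans h2))
      rw [h1]
      refine Finset.sum_eq_zero fun c _ => ?_
      have h2 : ∑ j ∈ J c, g j * r j * f (col j) = f (cc c) * ∑ j ∈ J c, r j * g j := by
        rw [Finset.mul_sum]
        refine Finset.sum_congr rfl fun j hj => ?_
        rw [(Finset.mem_filter.1 hj).2]
        ring
      rw [h2, hg' c, mul_zero]
    have hB : ∑ j ∈ J1, r j ^ 2 ≤ B := by
      refine le_trans (Finset.sum_le_univ_sum_of_nonneg fun j => sq_nonneg _) ?_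
      simpa only [hr2] using hp
    have hgJ : ∑ j ∈ J1, g j ^ 2 ≤ ∑ j, g j ^ 2 :=
      Finset.sum_le_univ_sum_of_nonneg fun j => sq_nonneg _
    have hG0 : 0 ≤ ∑ j ∈ J1, g j ^ 2 := Finset.sum_nonneg fun _ _ => sq_nonneg _
    have hR0 : 0 ≤ ∑ j ∈ J1, r j ^ 2 := Finset.sum_nonneg fun _ _ => sq_nonneg _
    have hi : ∀ i, (∑ j, g j * p j i) ^ 2 ≤ (B / (q : ℝ) ^ 2) * ∑ j, g j ^ 2 := by
      intro i
      have h1 : ∑ j, g j * p j i = ∑ j ∈ J1, g j * p j i := by
        symm
        apply Finset.sum_subset (Finset.subset_univ _)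
        intro j _ hj
        have h2 : r j = 0 := by
          by_contra h
          exact hj ((hJ1m j).2 h)
        have h3 := hpr j i
        rw [h2] at h3
        rw [abs_nonpos_iff.1 h3, mul_zero]
      have h2 : ∑ j ∈ J1, g j * p j i
          = ∑ j ∈ J1, g j * (r j * (p j i / r j - (col j i : ℝ) / q)) := by
        have h3 := hzero (fun v => (v i : ℝ) / q)
        rw [← sub_zero (∑ j ∈ J1, g j * p j i), ← h3, ← Finset.sum_sub_distrib]
        refine Finset.sum_congr rfl fun j hj => ?_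
        have h4 := (hJ1m j).1 hj
        field_simp
      rw [h1, h2]
      refine (Finset.sum_mul_sq_le_sq_mul_sq _ _ _).trans ?_
      have h5 : ∑ j ∈ J1, (r j * (p j i / r j - (col j i : ℝ) / q)) ^ 2
          ≤ B / (q : ℝ) ^ 2 := by
        have h6 : ∀ j ∈ J1, (r j * (p j i / r j - (col j i : ℝ) / q)) ^ 2
            ≤ r j ^ 2 / (q : ℝ) ^ 2 := by
          intro j _
          have h7 : (col j i : ℝ) ≤ (q : ℝ) * (p j i / r j) := Int.floor_le _
          have h8 : (q : ℝ) * (p j i / r j) < (col j i : ℝ) + 1 := Int.lt_floor_add_one _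
          have h9 : p j i / r j - (col j i : ℝ) / q
              = ((q : ℝ) * (p j i / r j) - col j i) / q := by
            field_simp
          rw [h9, mul_pow, div_pow, mul_div_assoc']
          apply div_le_div_of_nonneg_right _ (by positivity)
          have h10 : ((q : ℝ) * (p j i / r j) - col j i) ^ 2 ≤ 1 := by
            nlinarith
          nlinarith [sq_nonneg (r j)]
        refine (Finset.sum_le_sum h6).trans ?_
        rw [← Finset.sum_div]
        exact div_le_div_of_nonneg_right hB (by positivity)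
      calc (∑ j ∈ J1, g j ^ 2) * ∑ j ∈ J1, (r j * (p j i / r j - (col j i : ℝ) / q)) ^ 2
          ≤ (∑ j, g j ^ 2) * (B / (q : ℝ) ^ 2) := by
            apply mul_le_mul hgJ h5 (Finset.sum_nonneg fun _ _ => sq_nonneg _)
              (Finset.sum_nonneg fun _ _ => sq_nonneg _)
        _ = _ := mul_comm _ _
    calc ∑ i, (∑ j, g j * p j i) ^ 2 ≤ ∑ _i : Fin k, (B / (q : ℝ) ^ 2) * ∑ j, g j ^ 2 :=
          Finset.sum_le_sum fun i _ => hi i
      _ = (k * B / (q : ℝ) ^ 2) * ∑ j, g j ^ 2 := by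
          rw [Finset.sum_const, Finset.card_univ, Fintype.card_fin, nsmul_eq_mul]
          ring

theorem hs_sum {n m M : ℕ} (e : Fin m → EuclideanSpace ℝ (Fin n)) (he : Orthonormal ℝ e)
    (y : Fin m → EuclideanSpace ℝ (Fin M)) :
    ∑ j, ‖∑ i, (e i j) • y i‖ ^ 2 = ∑ i, ‖y i‖ ^ 2 := by
  have hin : ∀ i i', ∑ j, e i j * e i' j = if i = i' then (1:ℝ) else 0 := by
    intro i i'
    have h := (orthonormal_iff_ite.1 he) i i'
    rw [← h, PiLp.inner_apply]
    apply Finset.sum_congr rfl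
    intro j _
    simp [mul_comm]
  have h1 : ∀ j, ‖∑ i, (e i j) • y i‖ ^ 2 = ∑ i, ∑ i', (e i j * e i' j) * inner ℝ (y i) (y i') := by
    intro j
    rw [← real_inner_self_eq_norm_sq, sum_inner]
    apply Finset.sum_congr rfl
    intro i _
    rw [inner_sum]
    apply Finset.sum_congr rfl
    intro i' _
    rw [real_inner_smul_left, real_inner_smul_right]
    ring
  simp_rw [h1]
  rw [Finset.sum_comm]
  apply Finset.sum_congr rfl
  intro i _
  rw [Finset.sum_comm]
  have h2 : ∀ i', ∑ j, (e i j * e i' j) * inner ℝ (y i) (y i') = (if i = i' then (1:ℝ) else 0) * inner ℝ (y i) (y i') := by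
    intro i'
    rw [← Finset.sum_mul, hin]
  simp_rw [h2]
  simp

theorem bessel_hs {n m k M : ℕ} (e : Fin m → EuclideanSpace ℝ (Fin n)) (he : Orthonormal ℝ e)
    (f : Fin k → EuclideanSpace ℝ (Fin n)) (hf : Orthonormal ℝ f)
    (hfe : ∀ i, f i ∈ Submodule.span ℝ (Set.range e))
    (A : EuclideanSpace ℝ (Fin n) →ₗ[ℝ] EuclideanSpace ℝ (Fin M)) :
    ∑ i, ‖A (f i)‖ ^ 2 ≤ ∑ j, ‖A (e j)‖ ^ 2 := by
  have h1 : ∀ x : EuclideanSpace ℝ (Fin n), ‖A x‖ ^ 2 = ∑ q, (A x q) ^ 2 := by
    intro x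
    rw [EuclideanSpace.norm_sq_eq]
    apply Finset.sum_congr rfl
    intro q _
    rw [Real.norm_eq_abs, sq_abs]
  simp_rw [h1]
  rw [Finset.sum_comm, Finset.sum_comm (s := (Finset.univ : Finset (Fin m)))]
  apply Finset.sum_le_sum
  intro q _
  set φ : EuclideanSpace ℝ (Fin n) →ₗ[ℝ] ℝ :=
    { toFun := fun x => A x q
      map_add' := by intro x y; simp
      map_smul' := by intro c x; simp } with hφ
  set z : EuclideanSpace ℝ (Fin n) := ∑ j, (φ (e j)) • e j with hz
  have hz1 : ∀ j, inner ℝ z (e j) = φ (e j) := by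
    intro j
    rw [hz, sum_inner]
    simp_rw [real_inner_smul_left, orthonormal_iff_ite.1 he]
    simp
  have hz2 : ‖z‖ ^ 2 = ∑ j, (φ (e j)) ^ 2 := by
    rw [← real_inner_self_eq_norm_sq]
    conv_lhs => rw [hz]
    rw [sum_inner]
    apply Finset.sum_congr rfl
    intro j _
    rw [real_inner_smul_left, real_inner_comm, hz1]
    ring
  have hz3 : ∀ i, φ (f i) = inner ℝ (f i) z := by
    intro i
    have h3 : Set.EqOn φ (innerₛₗ ℝ z) (Submodule.span ℝ (Set.range e)) := by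
      apply LinearMap.eqOn_span
      rintro _ ⟨j, rfl⟩
      rw [innerₛₗ_apply_apply, hz1]
    rw [h3 (hfe i), innerₛₗ_apply_apply, real_inner_comm]
  have h4 := hf.sum_inner_products_le z (s := Finset.univ)
  calc ∑ i, (A (f i) q) ^ 2 = ∑ i, ‖inner ℝ (f i) z‖ ^ 2 := by
        apply Finset.sum_congr rfl
        intro i _
        rw [Real.norm_eq_abs, sq_abs, ← hz3]
        rfl
    _ ≤ ‖z‖ ^ 2 := h4
    _ = ∑ j, (A (e j) q) ^ 2 := by
        rw [hz2]
        rfl

theorem weak_rank {X : Type} [NormedAddCommGroup X] [NormedSpace ℝ X] {n : ℕ}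
    (Q : EuclideanSpace ℝ (Fin n) →ₗ[ℝ] X) (W : Submodule ℝ X) (hWf : FiniteDimensional ℝ W)
    (hQ : ∀ f, Q f ∈ W) (T : Submodule ℝ (EuclideanSpace ℝ (Fin n))) :
    Module.finrank ℝ T ≤
      Module.finrank ℝ (T ⊓ LinearMap.ker Q : Submodule ℝ (EuclideanSpace ℝ (Fin n))) +
        Module.finrank ℝ W := by
  let g : T →ₗ[ℝ] W := (Q.codRestrict W hQ).domRestrict T
  have h1 := LinearMap.finrank_range_add_finrank_ker g
  have h2 : Module.finrank ℝ (LinearMap.range g) ≤ Module.finrank ℝ W := Submodule.finrank_le _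
  have h3 : Module.finrank ℝ (LinearMap.ker g) =
      Module.finrank ℝ (T ⊓ LinearMap.ker Q : Submodule ℝ (EuclideanSpace ℝ (Fin n))) := by
    have : (LinearMap.ker g).map T.subtype = T ⊓ LinearMap.ker Q := by
      ext f
      constructor
      · rintro ⟨x, hx, rfl⟩
        refine ⟨x.2, ?_⟩
        have := congrArg Subtype.val (LinearMap.mem_ker.1 hx)
        exact this
      · rintro ⟨h1, h2⟩
        exact ⟨⟨f, h1⟩, Subtype.ext h2, rfl⟩
    rw [← this]
    exact (LinearEquiv.finrank_eq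
      (Submodule.equivMapOfInjective T.subtype (Subtype.val_injective) _))
  omega

theorem weak_snoc {n k : ℕ} (f : Fin k → EuclideanSpace ℝ (Fin n)) (hf : Orthonormal ℝ f)
    (g : EuclideanSpace ℝ (Fin n)) (hg : ‖g‖ = 1) (hfg : ∀ i, inner ℝ (f i) g = 0) :
    Orthonormal ℝ (Fin.snoc f g : Fin (k + 1) → EuclideanSpace ℝ (Fin n)) := by
  constructor
  · intro i
    refine Fin.lastCases ?_ (fun i => ?_) i
    · rw [Fin.snoc_last]; exact hg
    · rw [Fin.snoc_castSucc]; exact hf.1 i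
  · intro i j hij
    show inner ℝ ((Fin.snoc f g : Fin (k + 1) → EuclideanSpace ℝ (Fin n)) i)
      ((Fin.snoc f g : Fin (k + 1) → EuclideanSpace ℝ (Fin n)) j) = 0
    revert hij
    refine Fin.lastCases ?_ (fun i => ?_) i
    · refine Fin.lastCases ?_ (fun j => ?_) j
      · intro h; exact absurd rfl h
      · intro _
        rw [Fin.snoc_last, Fin.snoc_castSucc, real_inner_comm]
        exact hfg j
    · refine Fin.lastCases ?_ (fun j => ?_) j
      · intro _
        rw [Fin.snoc_last, Fin.snoc_castSucc]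
        exact hfg i
      · intro h
        rw [Fin.snoc_castSucc, Fin.snoc_castSucc]
        exact hf.2 (fun hh => h (by rw [hh]))

theorem weak_step {X : Type} [NormedAddCommGroup X] [NormedSpace ℝ X] {n : ℕ}
    (V : EuclideanSpace ℝ (Fin n) →ₗ[ℝ] X) (T1 : Submodule ℝ (EuclideanSpace ℝ (Fin n))) (N : ℕ)
    (k : ℕ) :
    (∃ f : Fin k → EuclideanSpace ℝ (Fin n), Orthonormal ℝ f ∧ (∀ i, f i ∈ T1) ∧
      ∀ i, 8 / (N : ℝ) < ‖V (f i)‖ ^ 2) ∨
    (∃ S ≤ T1, (∀ f ∈ S, ‖V f‖ ^ 2 ≤ 8 / (N : ℝ) * ‖f‖ ^ 2) ∧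
      Module.finrank ℝ T1 ≤ Module.finrank ℝ S + k) := by
  induction k with
  | zero =>
    left
    refine ⟨fun i => i.elim0, ⟨fun i => i.elim0, fun i => i.elim0⟩, fun i => i.elim0,
      fun i => i.elim0⟩
  | succ k ih =>
    rcases ih with ⟨f, hf, hfT, hfV⟩ | ⟨S, hS, h1, h2⟩
    · let S : Submodule ℝ (EuclideanSpace ℝ (Fin n)) :=
        (Submodule.span ℝ (Set.range f))ᗮ ⊓ T1
      have hsp : Submodule.span ℝ (Set.range f) ≤ T1 := by
        rw [Submodule.span_le]
        rintro _ ⟨i, rfl⟩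
        exact hfT i
      have hr : Module.finrank ℝ (Submodule.span ℝ (Set.range f)) + Module.finrank ℝ S
          = Module.finrank ℝ T1 := Submodule.finrank_add_inf_finrank_orthogonal hsp
      have hc : Module.finrank ℝ (Submodule.span ℝ (Set.range f)) ≤ k := by
        have := finrank_range_le_card (R := ℝ) (b := f)
        rwa [Fintype.card_fin] at this
      by_cases hsm : ∀ g ∈ S, ‖V g‖ ^ 2 ≤ 8 / (N : ℝ) * ‖g‖ ^ 2
      · right
        exact ⟨S, inf_le_right, hsm, by omega⟩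
      · left
        push Not at hsm
        obtain ⟨g, hg, hgV⟩ := hsm
        have hg0 : g ≠ 0 := by
          rintro rfl
          rw [map_zero, norm_zero, norm_zero] at hgV
          simp at hgV
        have hn : 0 < ‖g‖ := norm_pos_iff.2 hg0
        refine ⟨Fin.snoc f (‖g‖⁻¹ • g), weak_snoc f hf _ ?_ ?_, ?_, ?_⟩
        · rw [norm_smul, norm_inv, norm_norm, inv_mul_cancel₀ hn.ne']
        · intro i
          rw [inner_smul_right]
          have := (Submodule.mem_orthogonal _ _).1 hg.1 (f i)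
            (Submodule.subset_span ⟨i, rfl⟩)
          rw [this, mul_zero]
        · intro i
          refine Fin.lastCases ?_ (fun i => ?_) i
          · rw [Fin.snoc_last]; exact T1.smul_mem _ hg.2
          · rw [Fin.snoc_castSucc]; exact hfT i
        · intro i
          refine Fin.lastCases ?_ (fun i => ?_) i
          · rw [Fin.snoc_last, map_smul, norm_smul, norm_inv, norm_norm, mul_pow, inv_pow,
              ← div_eq_inv_mul, lt_div_iff₀ (by positivity)]
            exact hgV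
          · rw [Fin.snoc_castSucc]; exact hfV i
    · right
      exact ⟨S, hS, h1, by omega⟩

/-- weak step -/
theorem weak {X : Type} [NormedAddCommGroup X] [NormedSpace ℝ X] (P : X →ₗ[ℝ] X)
    (W : Submodule ℝ X) (hWf : FiniteDimensional ℝ W) (w : ℕ) (hW : Module.finrank ℝ W ≤ w)
    (hPW : ∀ x, x - P x ∈ W) (N : ℕ) (hN : 0 < N)
    (hH : ∀ H : Submodule ℝ X, FiniteDimensional ℝ H → (∀ h ∈ H, P h = h) →
      Module.finrank ℝ H ≤ N → ∃ (m : ℕ) (u : X →ₗ[ℝ] EuclideanSpace ℝ (Fin m)),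
        (∀ x, ‖u x‖ ≤ ‖x‖) ∧ ∀ h ∈ H, ‖h‖ ^ 2 ≤ 8 * ‖u h‖ ^ 2)
    (n : ℕ) (V : EuclideanSpace ℝ (Fin n) →ₗ[ℝ] X)
    (T : Submodule ℝ (EuclideanSpace ℝ (Fin n))) (c : ℝ) (hc : c ≤ 1) (hT : HasCost V T c) :
    ∃ S ≤ T, Module.finrank ℝ T ≤ Module.finrank ℝ S + (w + N) ∧
      ∀ f ∈ S, ‖V f‖ ^ 2 ≤ 8 / N * ‖f‖ ^ 2 := by
  obtain ⟨m, e, he, hsp, hcost⟩ := hT
  let Q : EuclideanSpace ℝ (Fin n) →ₗ[ℝ] X := V - P ∘ₗ V
  have hQ : ∀ f, Q f = V f - P (V f) := fun f => rfl
  have h1 := weak_rank Q W hWf (fun f => by rw [hQ]; exact hPW _) T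
  rcases weak_step V (T ⊓ LinearMap.ker Q) N N with ⟨f, hf, hfT, hfV⟩ | ⟨S, hS, h2, h3⟩
  · exfalso
    let H : Submodule ℝ X := Submodule.span ℝ (Set.range (fun i => V (f i)))
    have hHf : FiniteDimensional ℝ H := FiniteDimensional.span_of_finite ℝ (Set.finite_range _)
    have hHP : ∀ h ∈ H, P h = h := by
      intro h hh
      induction hh using Submodule.span_induction with
      | mem x hx =>
        obtain ⟨i, rfl⟩ := hx
        have := LinearMap.mem_ker.1 (hfT i).2
        rw [hQ] at this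
        exact (sub_eq_zero.1 this).symm
      | zero => rw [map_zero]
      | add x y _ _ hx hy => rw [map_add, hx, hy]
      | smul a x _ hx => rw [map_smul, hx]
    have hHr : Module.finrank ℝ H ≤ N := by
      have := finrank_range_le_card (R := ℝ) (b := fun i => V (f i))
      rwa [Fintype.card_fin] at this
    obtain ⟨M, u, hu1, hu2⟩ := hH H hHf hHP hHr
    have hb := bessel_hs e he f hf (fun i => by rw [hsp]; exact (hfT i).1) (u ∘ₗ V)
    have k1 : ∑ i : Fin N, (8 / (N : ℝ)) < ∑ i, ‖V (f i)‖ ^ 2 := by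
      haveI : Nonempty (Fin N) := ⟨⟨0, hN⟩⟩
      exact Finset.sum_lt_sum_of_nonempty Finset.univ_nonempty (fun i _ => hfV i)
    have hN' : (N : ℝ) ≠ 0 := by exact_mod_cast hN.ne'
    rw [Finset.sum_const, Finset.card_univ, Fintype.card_fin, nsmul_eq_mul,
      mul_div_cancel₀ _ hN'] at k1
    have k2 : ∑ i, ‖V (f i)‖ ^ 2 ≤ 8 * ∑ i, ‖(u ∘ₗ V) (f i)‖ ^ 2 := by
      rw [Finset.mul_sum]
      exact Finset.sum_le_sum (fun i _ => hu2 _ (Submodule.subset_span ⟨i, rfl⟩))
    have k3 : ∑ j, ‖(u ∘ₗ V) (e j)‖ ^ 2 ≤ ∑ j, ‖V (e j)‖ ^ 2 := by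
      apply Finset.sum_le_sum
      intro j _
      exact pow_le_pow_left₀ (norm_nonneg _) (hu1 _) 2
    linarith
  · refine ⟨S, hS.trans inf_le_left, by omega, h2⟩

theorem hsle_of_proj {n k : ℕ} (f : Fin k → EuclideanSpace ℝ (Fin n)) (hf : Orthonormal ℝ f)
    (x : EuclideanSpace ℝ (Fin n)) :
    (Submodule.span ℝ (Set.range f)).starProjection x = ∑ i, (inner ℝ (f i) x) • f i := by
  apply Submodule.eq_starProjection_of_mem_of_inner_eq_zero
  · exact Submodule.sum_mem _ fun i _ => Submodule.smul_mem _ _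
      (Submodule.subset_span (Set.mem_range_self i))
  · intro w hw
    induction hw using Submodule.span_induction with
    | mem y hy =>
      obtain ⟨i, rfl⟩ := hy
      rw [inner_sub_left, hf.inner_left_fintype, real_inner_comm]
      simp
    | zero => simp
    | add a b _ _ ha hb => rw [inner_add_right, ha, hb, add_zero]
    | smul c a _ ha => rw [inner_smul_right, ha, mul_zero]

/-- Hilbert-Schmidt bound -/
theorem hsle_of {X : Type} [NormedAddCommGroup X] [NormedSpace ℝ X] {n m κ : ℕ}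
    (V : EuclideanSpace ℝ (Fin n) →ₗ[ℝ] X)
    (e : Fin m → EuclideanSpace ℝ (Fin n)) (he : Orthonormal ℝ e)
    (J : Fin κ → Finset (Fin m)) (α : Fin m → ℝ) (hJ : ∀ c d, c ≠ d → Disjoint (J c) (J d))
    (hα : ∀ c, ∑ j ∈ J c, α j ^ 2 = 1) :
    HSle V (Submodule.span ℝ (Set.range e))
      (Submodule.span ℝ (Set.range (fun c => ∑ j ∈ J c, α j • e j)))
      (∑ c, ∑ j ∈ J c, ‖V (e j) - α j • V (∑ i ∈ J c, α i • e i)‖ ^ 2 +
        ∑ j ∈ univ \ univ.biUnion J, ‖V (e j)‖ ^ 2) := by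
  intro M w hw
  have ha := a_orth e he J α hJ hα
  set a : Fin κ → EuclideanSpace ℝ (Fin n) := fun c => ∑ j ∈ J c, α j • e j with hadef
  set b : Fin m → EuclideanSpace ℝ (Fin n) := fun i => ∑ c, if i ∈ J c then α i • a c else 0
    with hb
  have hdiff : ∀ j : Fin n, (Submodule.span ℝ (Set.range e)).starProjection
      (EuclideanSpace.single j 1) - (Submodule.span ℝ (Set.range a)).starProjection
      (EuclideanSpace.single j 1) = ∑ i, (e i j) • (e i - b i) := by
    intro j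
    rw [hsle_of_proj e he, hsle_of_proj a ha]
    have h1 : ∀ i, inner ℝ (e i) (EuclideanSpace.single j (1 : ℝ)) = e i j := by
      intro i
      simp [EuclideanSpace.inner_single_right]
    have h2 : ∀ c, inner ℝ (a c) (EuclideanSpace.single j (1 : ℝ)) =
        ∑ i ∈ J c, α i * e i j := by
      intro c
      simp only [hadef, sum_inner]
      refine Finset.sum_congr rfl fun i _ => ?_
      rw [inner_smul_left, h1]
      simp
    simp only [h1, h2, smul_sub, Finset.sum_sub_distrib]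
    congr 1
    simp only [hb, Finset.smul_sum]
    rw [Finset.sum_comm]
    refine Finset.sum_congr rfl fun c _ => ?_
    rw [Finset.sum_smul]
    have h3 : ∀ i, e i j • (if i ∈ J c then α i • a c else 0) =
        if i ∈ J c then (α i * e i j) • a c else 0 := by
      intro i
      split_ifs
      · rw [smul_smul, mul_comm]
      · simp
    simp only [h3]
    rw [Finset.sum_ite_mem, Finset.univ_inter]
  have hsum : ∑ j, ‖w (V ((Submodule.span ℝ (Set.range e)).starProjection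
      (EuclideanSpace.single j 1) - (Submodule.span ℝ (Set.range a)).starProjection
      (EuclideanSpace.single j 1)))‖ ^ 2 = ∑ i, ‖w (V (e i - b i))‖ ^ 2 := by
    rw [← hs_sum e he (fun i => w (V (e i - b i)))]
    refine Finset.sum_congr rfl fun j _ => ?_
    rw [hdiff j]
    simp only [map_sum, map_smul]
  rw [hsum]
  have hle : ∑ i, ‖w (V (e i - b i))‖ ^ 2 ≤ ∑ i, ‖V (e i - b i)‖ ^ 2 :=
    Finset.sum_le_sum fun i _ => pow_le_pow_left₀ (norm_nonneg _) (hw _) 2
  refine hle.trans (le_of_eq ?_)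
  rw [← Finset.sum_sdiff (Finset.subset_univ (univ.biUnion J)), add_comm]
  congr 1
  · rw [Finset.sum_biUnion (fun c _ d _ hcd => hJ c d hcd)]
    refine Finset.sum_congr rfl fun c _ => Finset.sum_congr rfl fun j hj => ?_
    have hbj : b j = α j • a c := by
      simp only [hb]
      rw [Finset.sum_eq_single c]
      · rw [if_pos hj]
      · intro d _ hdc
        rw [if_neg]
        intro hjd
        exact Finset.disjoint_left.mp (hJ d c hdc) hjd hj
      · intro h
        exact absurd (mem_univ c) h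
    rw [map_sub, hbj, map_smul]
  · refine Finset.sum_congr rfl fun j hj => ?_
    have hbj : b j = 0 := by
      simp only [hb]
      refine Finset.sum_eq_zero fun c _ => ?_
      rw [if_neg]
      intro h
      exact (Finset.mem_sdiff.mp hj).2 (Finset.mem_biUnion.mpr ⟨c, mem_univ c, h⟩)
    rw [hbj, sub_zero]

lemma small_of_expand {n k : ℕ} (z : Fin k → EuclideanSpace ℝ (Fin n)) (hz : Orthonormal ℝ z)
    (g : EuclideanSpace ℝ (Fin n)) (hg : g ∈ Submodule.span ℝ (Set.range z)) :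
    g = ∑ i, (inner ℝ (z i) g : ℝ) • z i ∧ ‖g‖ ^ 2 = ∑ i, (inner ℝ (z i) g : ℝ) ^ 2 := by
  obtain ⟨c, hc⟩ := (Submodule.mem_span_range_iff_exists_fun ℝ).1 hg
  have h1 : ∀ i, (inner ℝ (z i) g : ℝ) = c i := by
    intro i
    rw [← hc]
    exact hz.inner_right_fintype c i
  refine ⟨?_, ?_⟩
  · simp_rw [h1]; exact hc.symm
  · simp_rw [h1]
    rw [← real_inner_self_eq_norm_sq, ← hc, hz.inner_sum]
    refine Finset.sum_congr rfl fun i _ => ?_
    simp [sq]

/-- smallness -/
theorem small_of {X : Type} [NormedAddCommGroup X] [NormedSpace ℝ X] {n m : ℕ}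
    (V : EuclideanSpace ℝ (Fin n) →ₗ[ℝ] X)
    (e : Fin m → EuclideanSpace ℝ (Fin n)) (he : Orthonormal ℝ e)
    (hcost : ∑ j, ‖V (e j)‖ ^ 2 ≤ 1)
    (S : Submodule ℝ (EuclideanSpace ℝ (Fin n))) (hS : S ≤ Submodule.span ℝ (Set.range e))
    (r δ t : ℝ) (hr : 0 ≤ r) (hδ : 0 ≤ δ) (hVS : ∀ f ∈ S, ‖V f‖ ≤ r * ‖f‖)
    {k : ℕ} (z : Fin k → EuclideanSpace ℝ (Fin n)) (hz : Orthonormal ℝ z)
    (hzs : Submodule.span ℝ (Set.range z) = Sᗮ ⊓ Submodule.span ℝ (Set.range e))
    (f : EuclideanSpace ℝ (Fin n)) (hf : f ∈ Submodule.span ℝ (Set.range e))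
    (hfs : ∑ i, (inner ℝ (z i) f) ^ 2 ≤ δ ^ 2 * ‖f‖ ^ 2) (ht : r + δ ≤ t) :
    ‖V f‖ ≤ t * ‖f‖ := by
  set h : EuclideanSpace ℝ (Fin n) := S.starProjection f with hh
  have hhS : h ∈ S := Submodule.starProjection_apply_mem S f
  set g : EuclideanSpace ℝ (Fin n) := f - h with hg
  have hgS : g ∈ Sᗮ := Submodule.sub_starProjection_mem_orthogonal f
  have hgT : g ∈ Submodule.span ℝ (Set.range e) := Submodule.sub_mem _ hf (hS hhS)
  have hgZ : g ∈ Submodule.span ℝ (Set.range z) := by rw [hzs]; exact ⟨hgS, hgT⟩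
  have hzS : ∀ i, z i ∈ Sᗮ := by
    intro i
    have : z i ∈ Submodule.span ℝ (Set.range z) := Submodule.subset_span ⟨i, rfl⟩
    rw [hzs] at this
    exact this.1
  have hgz : ∀ i, (inner ℝ (z i) g : ℝ) = inner ℝ (z i) f := by
    intro i
    rw [hg, inner_sub_right, (Submodule.mem_orthogonal' S _).1 (hzS i) h hhS, sub_zero]
  have hgn : ‖g‖ ^ 2 ≤ (δ * ‖f‖) ^ 2 := by
    rw [(small_of_expand z hz g hgZ).2, mul_pow]
    simp_rw [hgz]
    exact hfs
  have hgn' : ‖g‖ ≤ δ * ‖f‖ :=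
    (pow_le_pow_iff_left₀ (norm_nonneg _) (mul_nonneg hδ (norm_nonneg _)) two_ne_zero).1 hgn
  have hVg : ‖V g‖ ≤ ‖g‖ := by
    obtain ⟨h1, h2⟩ := small_of_expand e he g hgT
    have h3 : ‖V g‖ ≤ ∑ j, |(inner ℝ (e j) g : ℝ)| * ‖V (e j)‖ := by
      conv_lhs => rw [h1]
      rw [map_sum]
      refine (norm_sum_le _ _).trans (Finset.sum_le_sum fun j _ => ?_)
      rw [map_smul, norm_smul, Real.norm_eq_abs]
    have h4 : (∑ j, |(inner ℝ (e j) g : ℝ)| * ‖V (e j)‖) ^ 2 ≤ ‖g‖ ^ 2 := by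
      calc (∑ j, |(inner ℝ (e j) g : ℝ)| * ‖V (e j)‖) ^ 2
          ≤ (∑ j, |(inner ℝ (e j) g : ℝ)| ^ 2) * ∑ j, ‖V (e j)‖ ^ 2 :=
            Finset.sum_mul_sq_le_sq_mul_sq _ _ _
        _ = ‖g‖ ^ 2 * ∑ j, ‖V (e j)‖ ^ 2 := by simp_rw [sq_abs]; rw [← h2]
        _ ≤ ‖g‖ ^ 2 * 1 := mul_le_mul_of_nonneg_left hcost (sq_nonneg _)
        _ = ‖g‖ ^ 2 := mul_one _
    exact h3.trans ((pow_le_pow_iff_left₀
      (Finset.sum_nonneg fun j _ => mul_nonneg (abs_nonneg _) (norm_nonneg _))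
      (norm_nonneg _) two_ne_zero).1 h4)
  have hhn : ‖h‖ ≤ ‖f‖ := Submodule.norm_starProjection_apply_le S f
  have hfgh : f = g + h := by rw [hg]; abel
  calc ‖V f‖ = ‖V g + V h‖ := by rw [← map_add, ← hfgh]
    _ ≤ ‖V g‖ + ‖V h‖ := norm_add_le _ _
    _ ≤ δ * ‖f‖ + r * ‖f‖ := add_le_add (hVg.trans hgn')
        ((hVS h hhS).trans (mul_le_mul_of_nonneg_left hhn hr))
    _ = (r + δ) * ‖f‖ := by ring
    _ ≤ t * ‖f‖ := mul_le_mul_of_nonneg_right ht (norm_nonneg _)

theorem stage_ok (l : ℕ) (t : ℝ) (ht : 0 < t) : ∃ N M : ℕ, StageOK l t N M := by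
  obtain ⟨N, hN⟩ := exists_nat_gt (32 / t ^ 2)
  have hN0 : 0 < N := by
    have h1 : (0 : ℝ) < 32 / t ^ 2 := by positivity
    have h2 : (0 : ℝ) < N := h1.trans hN
    exact_mod_cast h2
  obtain ⟨q, hq⟩ := exists_nat_gt ((2 * l + N) / (t / 2))
  have hq0 : 0 < q := by
    have h1 : (0 : ℝ) ≤ (2 * l + N) / (t / 2) := by positivity
    have h2 : (0 : ℝ) < q := lt_of_le_of_lt h1 hq
    exact_mod_cast h2
  refine ⟨N, (2 * q + 1) ^ (2 * l + N), ?_⟩
  intro X _ _ R hslow hNR n V T c hc hT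
  obtain ⟨⟨P, hP1, -, -, hPW, hPH⟩, hU⟩ := hslow
  obtain ⟨W, hWf, hW, hxW⟩ := hPW l
  obtain ⟨S, hST, hfin, hS⟩ := weak (P l) W hWf (2 * l) hW hxW N hN0
    (fun H hHf hHP hHN => hPH l H hHf hHP (hHN.trans hNR)) n V T c hc hT
  obtain ⟨m, e, he, hspan, hcost⟩ := hT
  subst hspan
  -- Z
  have hZfin : Module.finrank ℝ S + Module.finrank ℝ
      (Sᗮ ⊓ Submodule.span ℝ (Set.range e) : Submodule ℝ (EuclideanSpace ℝ (Fin n))) =
      Module.finrank ℝ (Submodule.span ℝ (Set.range e)) :=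
    Submodule.finrank_add_inf_finrank_orthogonal hST
  set Z : Submodule ℝ (EuclideanSpace ℝ (Fin n)) :=
    Sᗮ ⊓ Submodule.span ℝ (Set.range e) with hZdef
  set k := Module.finrank ℝ Z with hk
  have hkle : k ≤ 2 * l + N := by omega
  let b := stdOrthonormalBasis ℝ Z
  let z : Fin k → EuclideanSpace ℝ (Fin n) := fun i => (b i : EuclideanSpace ℝ (Fin n))
  have hz : Orthonormal ℝ z := by
    have := b.orthonormal
    exact this.comp_linearIsometry Z.subtypeₗᵢ
  have hzs : Submodule.span ℝ (Set.range z) = Z := by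
    have h1 : Set.range z = Z.subtype '' (Set.range b) := by
      ext x
      simp only [z, Set.mem_range, Set.mem_image, Submodule.subtype_apply, exists_exists_eq_and]
      exact Iff.rfl
    have h2 : Submodule.span ℝ (Set.range b) = ⊤ := by
      have := b.toBasis.span_eq
      simpa using this
    rw [h1, Submodule.span_image, h2]
    simp
  obtain ⟨κ, J, α, hκ, hJ, hα, hsmall⟩ := cells (fun j i => inner ℝ (z i) (e j)) k
    (coord_hs e he z hz) q hq0
  refine ⟨Submodule.span ℝ (Set.range (fun c => ∑ j ∈ J c, α j • e j)), ?_, ?_, ?_, ?_⟩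
  · rw [Submodule.span_le]
    rintro _ ⟨c, rfl⟩
    exact Submodule.sum_mem _ fun j _ => Submodule.smul_mem _ _ (Submodule.subset_span ⟨j, rfl⟩)
  · refine (finrank_range_le_card (R := ℝ) (fun c => ∑ j ∈ J c, α j • e j)).trans ?_
    rw [Fintype.card_fin]
    exact hκ.trans (Nat.pow_le_pow_right (by omega) hkle)
  · intro f hfT hf
    have horth : ∀ c, ∑ j ∈ J c, α j * inner ℝ (e j) f = 0 := by
      intro c
      have h1 := (Submodule.mem_orthogonal _ f).1 hf _ (Submodule.subset_span ⟨c, rfl⟩)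
      simpa [sum_inner, inner_smul_left] using h1
    have h2 := hsmall (fun j => inner ℝ (e j) f) horth
    -- expansion of f
    have hfe : f = ∑ j, (inner ℝ (e j) f : ℝ) • e j := expand_span e he f hfT
    have hnorm : ∑ j, (inner ℝ (e j) f : ℝ) ^ 2 = ‖f‖ ^ 2 := norm_span e he f hfT
    have hzf : ∀ i, ∑ j, (inner ℝ (e j) f : ℝ) * inner ℝ (z i) (e j) = inner ℝ (z i) f := by
      intro i
      conv_rhs => rw [hfe]
      simp [inner_sum, inner_smul_right]
    refine small_of V e he (hcost.trans hc) S hST (t / 2) (k / q) t (by positivity) (by positivity)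
      ?_ z hz hzs f hfT ?_ ?_
    · intro f hf
      have h3 := hS f hf
      have h4 : (8 : ℝ) / N ≤ (t / 2) ^ 2 := by
        rw [div_le_iff₀ (by exact_mod_cast hN0)]
        rw [div_lt_iff₀ (by positivity)] at hN
        nlinarith
      have h5 : ‖V f‖ ^ 2 ≤ (t / 2 * ‖f‖) ^ 2 := by
        rw [mul_pow]
        exact h3.trans (mul_le_mul_of_nonneg_right h4 (by positivity))
      exact le_of_sq_le_sq h5 (by positivity)
    · simp only [hzf] at h2
      rw [hnorm] at h2
      refine h2.trans (le_of_eq ?_)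
      rw [div_pow]; ring
    · have h6 : (k : ℝ) / q ≤ t / 2 := by
        rw [div_le_iff₀ (by exact_mod_cast hq0)]
        rw [div_lt_iff₀ (by positivity)] at hq
        have : (k : ℝ) ≤ 2 * l + N := by exact_mod_cast hkle
        linarith
      linarith
  · refine ⟨∑ c, ‖V (∑ j ∈ J c, α j • e j)‖ ^ 2,
      (∑ c, ∑ j ∈ J c, ‖V (e j) - α j • V (∑ i ∈ J c, α i • e i)‖ ^ 2 +
        ∑ j ∈ univ \ univ.biUnion J, ‖V (e j)‖ ^ 2), by positivity, ?_, ?_, ?_⟩
    · exact ⟨κ, _, a_orth e he J α hJ hα, rfl, le_rfl⟩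
    · exact (cost_of hU V e J α hJ hα).trans hcost
    · exact hsle_of V e he J α hJ hα

end Pool.Agent.Helper149.Beps
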