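import Pool.Agent.Helper579.Beps.Fin

set_option maxHeartbeats 4000000

open Finset

noncomputable section

namespace Pool.Agent.Helper149.Beps

open Pool.Agent.Helper579.Beps

theorem slow_mono {X : Type} [NormedAddCommGroup X] [NormedSpace ℝ X] {R R' : ℕ → ℕ}
    (h : IsSlow X R') (hR : ∀ K, R K ≤ R' K) : IsSlow X R := by
  obtain ⟨⟨P, h1, h2, h3, h4, h5⟩, h6⟩ := h
  exact ⟨⟨P, h1, h2, h3, h4, fun K H hH hP hr => h5 K H hH hP (hr.trans (hR K))⟩, h6⟩

theorem slow_half {X : Type} [NormedAddCommGroup X] [NormedSpace ℝ X] (R : ℕ → ℕ)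
    (h : IsSlow X R) : IsSlow (WithLp 2 (X × X)) (fun K => R (K / 2)) := by
  obtain ⟨⟨P, h1, h2, h3, h4, h5⟩, h6⟩ := h
  refine ⟨⟨fun K => spP (P (K / 2)), ?_, ?_, ?_, ?_, ?_⟩, ?_⟩
  · intro K z
    have e : ‖spP (P (K / 2)) z‖ ^ 2 ≤ ‖z‖ ^ 2 := by
      rw [sp_norm, sp_norm, spP_fst, spP_snd]
      have a1 := h1 (K / 2) z.fst
      have a2 := h1 (K / 2) z.snd
      gcongr
    exact (pow_le_pow_iff_left₀ (norm_nonneg _) (norm_nonneg _) two_ne_zero).1 e
  · intro K z hz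
    beta_reduce at hz ⊢
    rcases Nat.even_or_odd K with hK | hK
    · have e : (K + 1) / 2 = K / 2 := by
        obtain ⟨r, rfl⟩ := hK
        omega
      rw [e] at hz
      exact hz
    · have e : (K + 1) / 2 = K / 2 + 1 := by
        obtain ⟨r, rfl⟩ := hK
        omega
      rw [e] at hz
      have a1 := congrArg (fun w => w.fst) hz
      have a2 := congrArg (fun w => w.snd) hz
      simp only [spP_fst, spP_snd] at a1 a2
      exact sp_ext (h2 _ _ a1) (h2 _ _ a2)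
  · intro K z
    exact sp_ext (h3 _ _) (h3 _ _)
  · intro K
    obtain ⟨W, hW, hWr, hWx⟩ := h4 (K / 2)
    refine ⟨LinearMap.range ((WithLp.linearEquiv 2 ℝ (X × X)).symm.toLinearMap ∘ₗ
      (W.subtype.prodMap W.subtype)), ?_, ?_, ?_⟩
    · infer_instance
    · refine (LinearMap.finrank_range_le _).trans ?_
      rw [Module.finrank_prod]
      omega
    · intro z
      exact ⟨(⟨z.fst - P (K / 2) z.fst, hWx _⟩, ⟨z.snd - P (K / 2) z.snd, hWx _⟩), sp_ext rfl rfl⟩
  · intro K H hH hHP hHR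
    have f1 : FiniteDimensional ℝ (H.map (spF X)) := inferInstance
    have f2 : FiniteDimensional ℝ (H.map (spS X)) := inferInstance
    obtain ⟨m1, u1, hu1, hv1⟩ := h5 (K / 2) (H.map (spF X)) f1 (by
      rintro _ ⟨z, hz, rfl⟩
      have := congrArg (fun w => w.fst) (hHP z hz)
      exact this) ((Submodule.finrank_map_le _ _).trans hHR)
    obtain ⟨m2, u2, hu2, hv2⟩ := h5 (K / 2) (H.map (spS X)) f2 (by
      rintro _ ⟨z, hz, rfl⟩
      have := congrArg (fun w => w.snd) (hHP z hz)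
      exact this) ((Submodule.finrank_map_le _ _).trans hHR)
    refine ⟨m1 + m2, spU u1 u2, ?_, ?_⟩
    · intro z
      have e : ‖spU u1 u2 z‖ ^ 2 ≤ ‖z‖ ^ 2 := by
        rw [sp_norm, spU_norm]
        have a1 := hu1 z.fst
        have a2 := hu2 z.snd
        gcongr
      exact (pow_le_pow_iff_left₀ (norm_nonneg _) (norm_nonneg _) two_ne_zero).1 e
    · intro z hz
      rw [sp_norm, spU_norm]
      have a1 := hv1 z.fst ⟨z, hz, rfl⟩
      have a2 := hv2 z.snd ⟨z, hz, rfl⟩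
      linarith
  · intro ι s x a ha
    have b1 := h6 ι s (fun j => (x j).fst) a ha
    have b2 := h6 ι s (fun j => (x j).snd) a ha
    have c1 : (∑ j ∈ s, a j • x j).fst = ∑ j ∈ s, a j • (x j).fst := by
      rw [← spF_apply, map_sum]
      simp only [map_smul, spF_apply]
    have c2 : (∑ j ∈ s, a j • x j).snd = ∑ j ∈ s, a j • (x j).snd := by
      rw [← spS_apply, map_sum]
      simp only [map_smul, spS_apply]
    have d1 : ∀ j, (x j - a j • ∑ k ∈ s, a k • x k).fst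
        = (x j).fst - a j • ∑ k ∈ s, a k • (x k).fst := by
      intro j
      rw [← c1]; rfl
    have d2 : ∀ j, (x j - a j • ∑ k ∈ s, a k • x k).snd
        = (x j).snd - a j • ∑ k ∈ s, a k • (x k).snd := by
      intro j
      rw [← c2]; rfl
    simp only [sp_norm, Finset.sum_add_distrib, c1, c2, d1, d2]
    linarith

theorem dense_prod_gen {X X' : Type} [NormedAddCommGroup X] [NormedSpace ℝ X]
    [NormedAddCommGroup X'] [NormedSpace ℝ X'] (c : X →ₗᵢ[ℝ] X') (hc : DenseRange c) :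
    ∃ J : WithLp 2 (X × X) →ₗᵢ[ℝ] WithLp 2 (X' × X'), DenseRange J := by
  let J0 : WithLp 2 (X × X) →ₗ[ℝ] WithLp 2 (X' × X') :=
    (WithLp.linearEquiv 2 ℝ (X' × X')).symm.toLinearMap ∘ₗ
      (c.toLinearMap.prodMap c.toLinearMap) ∘ₗ (WithLp.linearEquiv 2 ℝ (X × X)).toLinearMap
  refine ⟨⟨J0, ?_⟩, ?_⟩
  · intro v
    rw [WithLp.prod_norm_eq_of_L2, WithLp.prod_norm_eq_of_L2]
    have h1 : ‖(J0 v).fst‖ = ‖v.fst‖ := c.norm_map _
    have h2 : ‖(J0 v).snd‖ = ‖v.snd‖ := c.norm_map _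
    rw [h1, h2]
  · have hd : DenseRange (Prod.map c c) := DenseRange.prodMap hc hc
    have he : DenseRange (WithLp.prodContinuousLinearEquiv 2 ℝ X' X').symm :=
      (WithLp.prodContinuousLinearEquiv 2 ℝ X' X').symm.surjective.denseRange
    have h3 : DenseRange ((WithLp.prodContinuousLinearEquiv 2 ℝ X' X').symm ∘ Prod.map c c) :=
      he.comp hd (WithLp.prodContinuousLinearEquiv 2 ℝ X' X').symm.continuous
    have h4 : DenseRange (((WithLp.prodContinuousLinearEquiv 2 ℝ X' X').symm ∘ Prod.map c c) ∘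
        (WithLp.prodContinuousLinearEquiv 2 ℝ X X)) := by
      have hs : Function.Surjective (WithLp.prodContinuousLinearEquiv 2 ℝ X X) :=
        (WithLp.prodContinuousLinearEquiv 2 ℝ X X).surjective
      unfold DenseRange at h3 ⊢
      rwa [hs.range_comp]
    exact h4

/-- `QStar` passes to spaces that embed -/
theorem qstar_emb {X X' : Type} [NormedAddCommGroup X] [NormedSpace ℝ X]
    [NormedAddCommGroup X'] [NormedSpace ℝ X'] (J : X' →ₗ[ℝ] X) (a C : ℝ)
    (hC : 0 ≤ C)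
    (h1 : ∀ x, ‖J x‖ ^ 2 ≤ a * ‖x‖ ^ 2) (h2 : ∀ x, ‖x‖ ^ 2 ≤ ‖J x‖ ^ 2) (h : QStar X C) :
    QStar X' (C * a) := by
  intro n V T
  obtain ⟨m, f, hf, hs, hle⟩ := h n (J ∘ₗ V) T
  refine ⟨m, f, hf, hs, ?_⟩
  calc ∑ i, ‖V (f i)‖ ^ 2 ≤ ∑ i, ‖(J ∘ₗ V) (f i)‖ ^ 2 :=
        Finset.sum_le_sum fun i _ => h2 _
    _ ≤ C * ∑ j, ‖(J ∘ₗ V) (EuclideanSpace.single j 1)‖ ^ 2 := hle
    _ ≤ C * ∑ j, a * ‖V (EuclideanSpace.single j 1)‖ ^ 2 :=
        mul_le_mul_of_nonneg_left (Finset.sum_le_sum fun j _ => h1 _) hC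
    _ = C * a * ∑ j, ‖V (EuclideanSpace.single j 1)‖ ^ 2 := by
        rw [← Finset.mul_sum]; ring

/-- The example, with the fourfold sum. -/
theorem main_space4 : ∃ (X : Type) (_ : NormedAddCommGroup X) (_ : NormedSpace ℝ X)
    (_ : CompleteSpace X), QStar (WithLp 2 (X × X)) 861 ∧
      QStar (WithLp 2 (WithLp 2 (X × X) × WithLp 2 (X × X))) 861 ∧ FarFromTwo X := by
  obtain ⟨R, hR⟩ := abs_main
  let R2 : ℕ → ℕ := fun j => max (R j) (max (R (2 * j)) (R (2 * j + 1)))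
  let g : ℕ → ℕ := fun K => 5 ^ (R2 K)
  have h1 : IsSlow1 (X0 g) R2 := slow1_X0 g R2 (fun K => le_rfl)
  have h2 : IsSlow (WithLp 2 (X0 g × X0 g)) R2 := slow_prod R2 h1
  have h3 := slow_half R2 h2
  have h4 : ∀ K, R K ≤ R2 (K / 2) := by
    intro K
    rcases Nat.even_or_odd' K with ⟨r, hr | hr⟩
    · have : K / 2 = r := by omega
      rw [this, hr]
      exact (le_max_left _ _).trans (le_max_right _ _)
    · have : K / 2 = r := by omega
      rw [this, hr]
      exact (le_max_right _ _).trans (le_max_right _ _)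
  have h5 := slow_mono h3 h4
  obtain ⟨J, hJ⟩ := dense_prod (X0 g)
  obtain ⟨J2, hJ2⟩ := dense_prod_gen J hJ
  refine ⟨UniformSpace.Completion (X0 g), inferInstance, inferInstance, inferInstance, ?_, ?_, ?_⟩
  · have := qstar_dense J hJ 215 (by norm_num) (hR _ (slow_mono h2 (fun K => le_max_left _ _)))
    norm_num at this
    exact this
  · have := qstar_dense J2 hJ2 215 (by norm_num) (hR _ h5)
    norm_num at this
    exact this
  · exact far_completion (far_X0 g)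

end Pool.Agent.Helper149.Beps
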