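import Pool.Agent.Helper149.Beps.CplxA

set_option maxHeartbeats 4000000

open Finset

noncomputable section

namespace Pool.Agent.Helper149.Beps

open Pool.Agent.Helper579.Beps

/-- The complexification of a real normed space: real linear maps from `ℂ` with the operator
norm. -/
def XC (X : Type) [NormedAddCommGroup X] [NormedSpace ℝ X] : Type := ℂ →L[ℝ] X

section
variable {X : Type} [NormedAddCommGroup X] [NormedSpace ℝ X]

instance : NormedAddCommGroup (XC X) := inferInstanceAs (NormedAddCommGroup (ℂ →L[ℝ] X))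

instance [CompleteSpace X] : CompleteSpace (XC X) := inferInstanceAs (CompleteSpace (ℂ →L[ℝ] X))

/-- evaluation -/
def XC.ev (T : XC X) (w : ℂ) : X := (show ℂ →L[ℝ] X from T) w

/-- multiplication by a complex number -/
def mulC (z : ℂ) : ℂ →L[ℝ] ℂ := ContinuousLinearMap.mul ℝ ℂ z

theorem mulC_apply (z w : ℂ) : mulC z w = z * w := rfl

instance : SMul ℂ (XC X) := ⟨fun z T => (show ℂ →L[ℝ] X from T).comp (mulC z)⟩

theorem XC.ext {T S : XC X} (h : ∀ w, T.ev w = S.ev w) : T = S :=
  ContinuousLinearMap.ext h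

theorem XC.ev_smul (z : ℂ) (T : XC X) (w : ℂ) : (z • T).ev w = T.ev (z * w) := rfl

theorem XC.ev_add (T S : XC X) (w : ℂ) : (T + S).ev w = T.ev w + S.ev w := rfl

theorem XC.ev_zero (w : ℂ) : (0 : XC X).ev w = 0 := rfl

theorem XC.ev_add_right (T : XC X) (v w : ℂ) : T.ev (v + w) = T.ev v + T.ev w :=
  map_add (show ℂ →L[ℝ] X from T) v w

theorem XC.ev_zero_right (T : XC X) : T.ev 0 = 0 :=
  map_zero (show ℂ →L[ℝ] X from T)

theorem XC.ev_real_smul (T : XC X) (r : ℝ) (w : ℂ) : T.ev ((r : ℂ) * w) = r • T.ev w := by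
  have : (r : ℂ) * w = r • w := by simp
  rw [this]
  exact map_smul (show ℂ →L[ℝ] X from T) r w

instance : Module ℂ (XC X) where
  one_smul T := XC.ext fun w => by rw [XC.ev_smul, one_mul]
  mul_smul a b T := XC.ext fun w => by
    rw [XC.ev_smul, XC.ev_smul, XC.ev_smul]
    ring_nf
  smul_zero a := XC.ext fun w => by rw [XC.ev_smul, XC.ev_zero, XC.ev_zero]
  smul_add a T S := XC.ext fun w => by
    rw [XC.ev_smul, XC.ev_add, XC.ev_add, XC.ev_smul, XC.ev_smul]
  add_smul a b T := XC.ext fun w => by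
    rw [XC.ev_smul, XC.ev_add, XC.ev_smul, XC.ev_smul, add_mul, XC.ev_add_right]
  zero_smul T := XC.ext fun w => by
    rw [XC.ev_smul, zero_mul, XC.ev_zero, XC.ev_zero_right]

theorem XC.norm_ev_le (T : XC X) (w : ℂ) : ‖T.ev w‖ ≤ ‖T‖ * ‖w‖ :=
  (show ℂ →L[ℝ] X from T).le_opNorm w

theorem XC.norm_le (T : XC X) {C : ℝ} (hC : 0 ≤ C) (h : ∀ w, ‖T.ev w‖ ≤ C * ‖w‖) : ‖T‖ ≤ C :=
  ContinuousLinearMap.opNorm_le_bound (show ℂ →L[ℝ] X from T) hC h

instance : NormedSpace ℂ (XC X) where
  norm_smul_le z T := by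
    refine XC.norm_le _ (by positivity) fun w => ?_
    rw [XC.ev_smul]
    refine (XC.norm_ev_le T _).trans (le_of_eq ?_)
    rw [norm_mul]
    ring

/-- evaluation at `1` and `I` -/
def JX : XC X →ₗ[ℝ] WithLp 2 (X × X) where
  toFun T := WithLp.toLp 2 (T.ev 1, T.ev Complex.I)
  map_add' T S := sp_ext rfl rfl
  map_smul' r T := by
    refine sp_ext ?_ ?_
    · show ((r : ℂ) • T).ev 1 = r • T.ev 1
      rw [XC.ev_smul, XC.ev_real_smul]
    · show ((r : ℂ) • T).ev Complex.I = r • T.ev Complex.I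
      rw [XC.ev_smul, XC.ev_real_smul]

theorem JX_norm (T : XC X) : ‖JX T‖ ^ 2 = ‖T.ev 1‖ ^ 2 + ‖T.ev Complex.I‖ ^ 2 :=
  WithLp.prod_norm_sq_eq_of_L2 _

theorem JX_le (T : XC X) : ‖JX T‖ ^ 2 ≤ 2 * ‖T‖ ^ 2 := by
  rw [JX_norm]
  have h1 := XC.norm_ev_le T 1
  have h2 := XC.norm_ev_le T Complex.I
  rw [norm_one, mul_one] at h1
  rw [Complex.norm_I, mul_one] at h2
  have h3 : ‖T.ev 1‖ ^ 2 ≤ ‖T‖ ^ 2 := by gcongr
  have h4 : ‖T.ev Complex.I‖ ^ 2 ≤ ‖T‖ ^ 2 := by gcongr
  linarith

theorem le_JX (T : XC X) : ‖T‖ ^ 2 ≤ ‖JX T‖ ^ 2 := by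
  have h : ‖T‖ ≤ ‖JX T‖ := by
    refine XC.norm_le _ (by positivity) fun w => ?_
    have h1 : T.ev w = w.re • T.ev 1 + w.im • T.ev Complex.I := by
      rw [← XC.ev_real_smul, ← XC.ev_real_smul, ← XC.ev_add_right]
      congr 1
      rw [mul_one]
      exact (Complex.re_add_im w).symm
    rw [h1]
    have h2 : ‖w.re • T.ev 1 + w.im • T.ev Complex.I‖ ≤ |w.re| * ‖T.ev 1‖ + |w.im| * ‖T.ev Complex.I‖ := by
      refine (norm_add_le _ _).trans (le_of_eq ?_)
      rw [norm_smul, norm_smul, Real.norm_eq_abs, Real.norm_eq_abs]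
    refine h2.trans ?_
    refine le_of_sq_le_sq ?_ (by positivity)
    rw [mul_pow, JX_norm, Complex.sq_norm, Complex.normSq_apply]
    have h3 := sq_nonneg (|w.re| * ‖T.ev Complex.I‖ - |w.im| * ‖T.ev 1‖)
    have h4 := sq_abs w.re
    have h5 := sq_abs w.im
    nlinarith
  gcongr

/-- the map on pairs -/
def JX2 : WithLp 2 (XC X × XC X) →ₗ[ℝ] WithLp 2 (WithLp 2 (X × X) × WithLp 2 (X × X)) where
  toFun T := WithLp.toLp 2 (JX T.fst, JX T.snd)
  map_add' T S := sp_ext (map_add JX T.fst S.fst) (map_add JX T.snd S.snd)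
  map_smul' r T := sp_ext (map_smul JX r T.fst) (map_smul JX r T.snd)

theorem JX2_norm (T : WithLp 2 (XC X × XC X)) : ‖JX2 T‖ ^ 2 = ‖JX T.fst‖ ^ 2 + ‖JX T.snd‖ ^ 2 :=
  WithLp.prod_norm_sq_eq_of_L2 _

theorem qstar_XC {C : ℝ} (hC : 0 ≤ C) (h : QStar (WithLp 2 (X × X)) C) : QStar (XC X) (C * 2) :=
  qstar_emb JX 2 C hC JX_le le_JX h

theorem qstar_XC2 {C : ℝ} (hC : 0 ≤ C)
    (h : QStar (WithLp 2 (WithLp 2 (X × X) × WithLp 2 (X × X))) C) :
    QStar (WithLp 2 (XC X × XC X)) (C * 2) := by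
  refine qstar_emb JX2 2 C hC (fun T => ?_) (fun T => ?_) h
  · rw [JX2_norm, sp_norm T]
    have h1 := JX_le T.fst
    have h2 := JX_le T.snd
    linarith
  · rw [JX2_norm, sp_norm T]
    have h1 := le_JX T.fst
    have h2 := le_JX T.snd
    linarith

/-- real vectors inside the complexification -/
def inX (x : X) : XC X := ContinuousLinearMap.smulRight Complex.reCLM x

theorem inX_ev (x : X) (w : ℂ) : (inX x).ev w = w.re • x := rfl

theorem norm_inX (x : X) : ‖inX x‖ = ‖x‖ := by
  apply le_antisymm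
  · refine XC.norm_le _ (norm_nonneg _) fun w => ?_
    rw [inX_ev, norm_smul, Real.norm_eq_abs, mul_comm]
    exact mul_le_mul_of_nonneg_left (Complex.abs_re_le_norm w) (norm_nonneg _)
  · have := XC.norm_ev_le (inX x) 1
    rw [inX_ev] at this
    simpa using this

theorem inX_sum (s : Finset ℕ) (ε : ℕ → ℝ) (x : ℕ → X) :
    ∑ i ∈ s, ε i • inX (x i) = inX (∑ i ∈ s, ε i • x i) := by
  classical
  induction s using Finset.induction_on with
  | empty =>
    simp only [Finset.sum_empty]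
    refine XC.ext fun w => ?_
    rw [inX_ev, smul_zero, XC.ev_zero]
  | insert a s ha ih =>
    rw [Finset.sum_insert ha, Finset.sum_insert ha, ih]
    refine XC.ext fun w => ?_
    rw [XC.ev_add, inX_ev, inX_ev, smul_add]
    congr 1
    show (((ε a : ℝ) : ℂ) • inX (x a)).ev w = _
    rw [XC.ev_smul, XC.ev_real_smul, inX_ev, smul_comm]

theorem far_XC (h : FarFromTwo X) : FarFromTwo (XC X) := by
  intro C
  obtain ⟨s, x, hs, hx⟩ := h C
  refine ⟨s, fun i => inX (x i), ?_, ?_⟩
  · simpa only [norm_inX] using hs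
  · intro ε hε
    rw [inX_sum, norm_inX]
    exact hx ε hε

end

/-- complex extension of Hilbert space valued operators -/
theorem ep_complex {X : Type} [NormedAddCommGroup X] [NormedSpace ℂ X] (C : ℝ) (hQ : QStar X C)
    {H : Type*} [NormedAddCommGroup H] [InnerProductSpace ℂ H] [CompleteSpace H]
    (Y : Submodule ℂ X) (g : Y →L[ℂ] H) : ∃ f : X →L[ℂ] H, ∀ y : Y, f y = g y := by
  let YR : Submodule ℝ X := Y.restrictScalars ℝ
  let gR : YR →L[ℝ] H := (g.restrictScalars ℝ : Y →L[ℝ] H)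
  let _ : InnerProductSpace ℝ H := InnerProductSpace.rclikeToReal ℂ H
  obtain ⟨f, hf⟩ := Pool.Agent.Helper965.Beps.ep_of_qstar (H := H) C hQ YR gR
  have hf' : ∀ y : Y, f (y : X) = g y := fun y => hf y
  let F : X →ₗ[ℂ] H :=
    { toFun := fun x => (2⁻¹ : ℂ) • (f x - Complex.I • f (Complex.I • x))
      map_add' := by
        intro x y
        simp only [smul_add, map_add]
        module
      map_smul' := by
        intro c x
        have h1 : ∀ x : X, f (c • x) = c.re • f x + c.im • f (Complex.I • x) := by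
          intro x
          have : c • x = c.re • x + c.im • (Complex.I • x) := by
            conv_lhs => rw [← Complex.re_add_im c]
            rw [add_smul, mul_smul]
            simp
          rw [this, map_add, map_smul, map_smul]
        have h2 : f (Complex.I • (c • x)) = c.re • f (Complex.I • x) - c.im • f x := by
          rw [smul_comm, h1, smul_smul, Complex.I_mul_I, neg_one_smul, map_neg, smul_neg,
            sub_eq_add_neg]
        rw [h1, h2]
        simp only [RingHom.id_apply]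
        have h3 : ∀ (r : ℝ) (v : H), r • v = (r : ℂ) • v := fun r v => (Complex.coe_smul r v).symm
        simp only [h3]
        have h4 : c = (c.re : ℂ) + (c.im : ℂ) * Complex.I := (Complex.re_add_im c).symm
        have h5 : Complex.I * Complex.I = -1 := Complex.I_mul_I
        generalize f x = u
        generalize f (Complex.I • x) = v
        generalize hp : (c.re : ℂ) = p at *
        generalize hq : (c.im : ℂ) = q at *
        subst h4
        match_scalars
        · ring
        · linear_combination (2⁻¹ * q) * h5 }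
  refine ⟨F.mkContinuous ‖f‖ ?_, ?_⟩
  · intro x
    show ‖(2⁻¹ : ℂ) • (f x - Complex.I • f (Complex.I • x))‖ ≤ ‖f‖ * ‖x‖
    rw [norm_smul]
    have h1 := f.le_opNorm x
    have h2 := f.le_opNorm (Complex.I • x)
    rw [norm_smul, Complex.norm_I, one_mul] at h2
    have h3 : ‖f x - Complex.I • f (Complex.I • x)‖ ≤ ‖f x‖ + ‖f (Complex.I • x)‖ := by
      refine (norm_sub_le _ _).trans (le_of_eq ?_)
      rw [norm_smul, Complex.norm_I, one_mul]
    have h4 : ‖(2⁻¹ : ℂ)‖ = 1 / 2 := by simp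
    rw [h4]
    linarith
  · intro y
    show (2⁻¹ : ℂ) • (f (y : X) - Complex.I • f (Complex.I • (y : X))) = g y
    have h1 : Complex.I • (y : X) = ((Complex.I • y : Y) : X) := rfl
    rw [h1, hf', hf', map_smul, smul_smul, Complex.I_mul_I, neg_one_smul, sub_neg_eq_add,
      ← two_smul ℂ (g y), smul_smul]
    norm_num

/-- complex extension of bilinear forms -/
theorem beps_complex {X : Type} [NormedAddCommGroup X] [NormedSpace ℂ X] (C : ℝ)
    (hQ : QStar (WithLp 2 (X × X)) C) (Y : Submodule ℂ X) (B : Y →ₗ[ℂ] Y →ₗ[ℂ] ℂ)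
    (b : ℝ) (hB : ∀ y z : Y, ‖B y z‖ ≤ b * ‖y‖ * ‖z‖) :
    ∃ B' : X →ₗ[ℂ] X →ₗ[ℂ] ℂ, (∃ b' : ℝ, ∀ x z : X, ‖B' x z‖ ≤ b' * ‖x‖ * ‖z‖) ∧
      ∀ y z : Y, B' y z = B y z := by
  let YR : Submodule ℝ X := Y.restrictScalars ℝ
  let cY : YR → Y := fun y => ⟨(y : X), y.2⟩
  have cadd : ∀ y z : YR, cY (y + z) = cY y + cY z := fun y z => rfl
  have csmul : ∀ (c : ℝ) (y : YR), cY (c • y) = (c : ℂ) • cY y := by
    intro c y
    apply Subtype.ext
    show c • (y : X) = (c : ℂ) • (y : X)
    exact (Complex.coe_smul c (y : X)).symm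
  let BR : YR →ₗ[ℝ] YR →ₗ[ℝ] ℝ := LinearMap.mk₂ ℝ (fun y z => (B (cY y) (cY z)).re)
    (fun y y' z => by
      rw [cadd, map_add, LinearMap.add_apply, Complex.add_re])
    (fun c y z => by
      rw [csmul, map_smul, LinearMap.smul_apply, smul_eq_mul, Complex.re_ofReal_mul, smul_eq_mul])
    (fun y z z' => by
      rw [cadd, map_add, Complex.add_re])
    (fun c y z => by
      rw [csmul, map_smul, smul_eq_mul, Complex.re_ofReal_mul, smul_eq_mul])
  have hBR : ∀ y z : YR, |BR y z| ≤ b * ‖y‖ * ‖z‖ := fun y z =>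
    (Complex.abs_re_le_norm _).trans (hB (cY y) (cY z))
  obtain ⟨B1, hB1⟩ := Pool.Agent.Helper965.Beps.beps_of_qstar C hQ YR BR b hBR
  have hB1' : ∀ y z : Y, B1 (y : X) (z : X) = (B y z).re := fun y z =>
    hB1 ⟨(y : X), y.2⟩ ⟨(z : X), z.2⟩
  -- complex decomposition of scalars
  have hdec : ∀ (c : ℂ) (x : X), c • x = c.re • x + c.im • (Complex.I • x) := by
    intro c x
    conv_lhs => rw [← Complex.re_add_im c]
    rw [add_smul, mul_smul]
    simp
  let A : X → X → ℂ := fun x z => (B1 x z : ℂ) - Complex.I * (B1 (Complex.I • x) z : ℂ)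
  have hAdd1 : ∀ x x' z, A (x + x') z = A x z + A x' z := by
    intro x x' z
    simp only [A, smul_add, map_add, add_apply, Complex.ofReal_add]
    ring
  have hAdd2 : ∀ x z z', A x (z + z') = A x z + A x z' := by
    intro x z z'
    simp only [A, map_add, Complex.ofReal_add]
    ring
  have hR2 : ∀ (r : ℝ) x z, A x (r • z) = (r : ℂ) * A x z := by
    intro r x z
    simp only [A, map_smul, smul_eq_mul, Complex.ofReal_mul]
    ring
  have hII : ∀ x : X, Complex.I • (Complex.I • x) = -x := by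
    intro x
    rw [smul_smul, Complex.I_mul_I, neg_one_smul]
  have hS1 : ∀ (c : ℂ) x z, A (c • x) z = c * A x z := by
    intro c x z
    have e1 : B1 (c • x) z = c.re * B1 x z + c.im * B1 (Complex.I • x) z := by
      rw [hdec c x, map_add, map_smul, map_smul]
      simp
    have e2 : B1 (Complex.I • (c • x)) z = c.re * B1 (Complex.I • x) z - c.im * B1 x z := by
      have h6 : Complex.I • (c • x) = c.re • (Complex.I • x) - c.im • x := by
        rw [smul_comm, hdec c (Complex.I • x), hII, smul_neg, sub_eq_add_neg]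
      have h7 : ∀ (r : ℝ) (v : X), B1 (r • v) z = r * B1 v z := by
        intro r v
        rw [map_smul]
        rfl
      rw [h6, B1.map_sub]
      show B1 (c.re • (Complex.I • x)) z - B1 (c.im • x) z = _
      rw [h7, h7]
    simp only [A, e1, e2]
    push_cast
    have h5 : Complex.I * Complex.I = -1 := Complex.I_mul_I
    conv_rhs => rw [← Complex.re_add_im c]
    linear_combination ((c.im : ℂ) * (B1 (Complex.I • x) z : ℂ)) * h5
  let A2 : X → X → ℂ := fun x z => 2⁻¹ * (A x z - Complex.I * A x (Complex.I • z))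
  have hN1 : ∀ x z, A (-x) z = - A x z := by
    intro x z
    have := hS1 (-1) x z
    simpa using this
  have hneg2 : ∀ x z, A x (-z) = - A x z := by
    intro x z
    have := hR2 (-1) x z
    simpa using this
  have hS2 : ∀ (c : ℂ) x z, A2 x (c • z) = c * A2 x z := by
    intro c x z
    have e1 : A x (c • z) = c.re * A x z + c.im * A x (Complex.I • z) := by
      rw [hdec c z, hAdd2, hR2, hR2]
    have e2 : A x (Complex.I • (c • z)) = c.re * A x (Complex.I • z) - c.im * A x z := by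
      rw [smul_comm, hdec c (Complex.I • z), hAdd2, hR2, hR2, hII, hneg2]
      ring
    simp only [A2, e1, e2]
    have h5 : Complex.I * Complex.I = -1 := Complex.I_mul_I
    conv_rhs => rw [← Complex.re_add_im c]
    linear_combination (2⁻¹ * (c.im : ℂ) * A x (Complex.I • z)) * h5
  let B' : X →ₗ[ℂ] X →ₗ[ℂ] ℂ := LinearMap.mk₂ ℂ A2
    (fun x x' z => by
      simp only [A2, hAdd1]
      ring)
    (fun c x z => by
      simp only [A2, hS1, smul_eq_mul]
      ring)
    (fun x z z' => by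
      simp only [A2, smul_add, hAdd2]
      ring)
    (fun c x z => by
      rw [hS2, smul_eq_mul])
  refine ⟨B', ⟨2 * ‖B1‖, ?_⟩, ?_⟩
  · intro x z
    have hA : ∀ x z, ‖A x z‖ ≤ 2 * ‖B1‖ * ‖x‖ * ‖z‖ := by
      intro x z
      have h1 := B1.le_opNorm₂ x z
      have h2 := B1.le_opNorm₂ (Complex.I • x) z
      rw [norm_smul, Complex.norm_I, one_mul] at h2
      have h3 : ‖A x z‖ ≤ ‖(B1 x z : ℂ)‖ + ‖Complex.I * (B1 (Complex.I • x) z : ℂ)‖ :=
        norm_sub_le _ _
      rw [norm_mul, Complex.norm_I, one_mul, Complex.norm_real, Complex.norm_real] at h3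
      nlinarith
    have h1 := hA x z
    have h2 := hA x (Complex.I • z)
    rw [norm_smul, Complex.norm_I, one_mul] at h2
    have h3 : ‖B' x z‖ ≤ 2⁻¹ * (‖A x z‖ + ‖A x (Complex.I • z)‖) := by
      show ‖(2⁻¹ : ℂ) * (A x z - Complex.I * A x (Complex.I • z))‖ ≤ _
      rw [norm_mul]
      have h4 : ‖(2⁻¹ : ℂ)‖ = 2⁻¹ := by simp
      rw [h4]
      refine mul_le_mul_of_nonneg_left ?_ (by norm_num)
      refine (norm_sub_le _ _).trans (le_of_eq ?_)
      rw [norm_mul, Complex.norm_I, one_mul]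
    linarith
  · intro y z
    show A2 (y : X) (z : X) = B y z
    have hAY : ∀ y z : Y, A (y : X) (z : X) = B y z := by
      intro y z
      show (B1 (y : X) (z : X) : ℂ) - Complex.I * (B1 (Complex.I • (y : X)) (z : X) : ℂ) = B y z
      have h1 : Complex.I • (y : X) = ((Complex.I • y : Y) : X) := rfl
      rw [h1, hB1', hB1', map_smul, LinearMap.smul_apply, smul_eq_mul]
      apply Complex.ext <;> simp
    show 2⁻¹ * (A (y : X) (z : X) - Complex.I * A (y : X) (Complex.I • (z : X))) = B y z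
    have h1 : Complex.I • (z : X) = ((Complex.I • z : Y) : X) := rfl
    rw [h1, hAY, hAY, map_smul, smul_eq_mul]
    have h5 : Complex.I * Complex.I = -1 := Complex.I_mul_I
    linear_combination (-2⁻¹ * B y z) * h5

end Pool.Agent.Helper149.Beps
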