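import Pool.Agent.Helper579.Beps.Defs

set_option maxHeartbeats 4000000

open Finset

noncomputable section

namespace Pool.Agent.Helper149.Beps

open Pool.Agent.Helper579.Beps

theorem a_orth {n m κ : ℕ} (e : Fin m → EuclideanSpace ℝ (Fin n)) (he : Orthonormal ℝ e)
    (J : Fin κ → Finset (Fin m)) (α : Fin m → ℝ) (hJ : ∀ c d, c ≠ d → Disjoint (J c) (J d))
    (hα : ∀ c, ∑ j ∈ J c, α j ^ 2 = 1) :
    Orthonormal ℝ (fun c => ∑ j ∈ J c, α j • e j) := by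
  rw [orthonormal_iff_ite]
  rw [orthonormal_iff_ite] at he
  intro c d
  have h1 : inner ℝ (∑ j ∈ J c, α j • e j) (∑ j ∈ J d, α j • e j) =
      ∑ i ∈ J c, ∑ j ∈ J d, α i * α j * (if i = j then (1 : ℝ) else 0) := by
    rw [sum_inner]
    refine Finset.sum_congr rfl fun i _ => ?_
    rw [inner_sum]
    refine Finset.sum_congr rfl fun j _ => ?_
    rw [inner_smul_left, inner_smul_right, he i j]
    simp [mul_assoc]
  rw [h1]
  by_cases hcd : c = d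
  · subst hcd
    rw [if_pos rfl]
    refine Eq.trans ?_ (hα c)
    refine Finset.sum_congr rfl fun i hi => ?_
    simp [Finset.sum_ite_eq, hi, sq]
  · rw [if_neg hcd]
    refine Finset.sum_eq_zero fun i hi => Finset.sum_eq_zero fun j hj => ?_
    have : i ≠ j := by
      rintro rfl
      exact (Finset.disjoint_left.1 (hJ c d hcd)) hi hj
    simp [this]

/-- cost bound -/
theorem cost_of {X : Type} [NormedAddCommGroup X] [NormedSpace ℝ X]
    (hU : ∀ (ι : Type) (s : Finset ι) (x : ι → X) (a : ι → ℝ), ∑ j ∈ s, a j ^ 2 = 1 →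
    ‖∑ j ∈ s, a j • x j‖ ^ 2 + 3 / 10 * ∑ j ∈ s, ‖x j - a j • ∑ k ∈ s, a k • x k‖ ^ 2
      ≤ ∑ j ∈ s, ‖x j‖ ^ 2) {n m κ : ℕ}
    (V : EuclideanSpace ℝ (Fin n) →ₗ[ℝ] X)
    (e : Fin m → EuclideanSpace ℝ (Fin n))
    (J : Fin κ → Finset (Fin m)) (α : Fin m → ℝ) (hJ : ∀ c d, c ≠ d → Disjoint (J c) (J d))
    (hα : ∀ c, ∑ j ∈ J c, α j ^ 2 = 1) :
    ∑ c, ‖V (∑ j ∈ J c, α j • e j)‖ ^ 2 + 3 / 10 *
      (∑ c, ∑ j ∈ J c, ‖V (e j) - α j • V (∑ i ∈ J c, α i • e i)‖ ^ 2 +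
        ∑ j ∈ univ \ univ.biUnion J, ‖V (e j)‖ ^ 2) ≤ ∑ j, ‖V (e j)‖ ^ 2 := by
  have h1 : ∀ c, ‖V (∑ j ∈ J c, α j • e j)‖ ^ 2 + 3 / 10 *
      ∑ j ∈ J c, ‖V (e j) - α j • V (∑ i ∈ J c, α i • e i)‖ ^ 2 ≤ ∑ j ∈ J c, ‖V (e j)‖ ^ 2 := by
    intro c
    have := hU (Fin m) (J c) (fun j => V (e j)) α (hα c)
    simpa [map_sum] using this
  have h2 : ∑ j, ‖V (e j)‖ ^ 2 = ∑ c, ∑ j ∈ J c, ‖V (e j)‖ ^ 2 +
      ∑ j ∈ univ \ univ.biUnion J, ‖V (e j)‖ ^ 2 := by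
    rw [← Finset.sum_biUnion (fun c _ d _ h => hJ c d h), add_comm,
      Finset.sum_sdiff (Finset.subset_univ _)]
  rw [h2]
  have h3 := Finset.sum_le_sum (fun c (_ : c ∈ (univ : Finset (Fin κ))) => h1 c)
  rw [Finset.sum_add_distrib, ← Finset.mul_sum] at h3
  have h4 : 0 ≤ ∑ j ∈ univ \ univ.biUnion J, ‖V (e j)‖ ^ 2 := by positivity
  nlinarith

/-- Hilbert-Schmidt norm of the coordinates -/
theorem coord_hs {n m k : ℕ}
    (e : Fin m → EuclideanSpace ℝ (Fin n)) (he : Orthonormal ℝ e)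
    (z : Fin k → EuclideanSpace ℝ (Fin n)) (hz : Orthonormal ℝ z) :
    ∑ j, ∑ i, (inner ℝ (z i) (e j)) ^ 2 ≤ k := by
  rw [Finset.sum_comm]
  have h1 : ∀ i, ∑ j, (inner ℝ (z i) (e j)) ^ 2 ≤ (1 : ℝ) := by
    intro i
    have h := he.sum_inner_products_le (s := Finset.univ) (z i)
    have h2 : ‖z i‖ = 1 := hz.1 i
    rw [h2] at h
    simpa [real_inner_comm] using h
  calc ∑ i, ∑ j, (inner ℝ (z i) (e j)) ^ 2 ≤ ∑ i : Fin k, (1 : ℝ) := Finset.sum_le_sum fun i _ => h1 i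
    _ = k := by simp

theorem expand_span {n m : ℕ} (e : Fin m → EuclideanSpace ℝ (Fin n)) (he : Orthonormal ℝ e)
    (f : EuclideanSpace ℝ (Fin n)) (hf : f ∈ Submodule.span ℝ (Set.range e)) :
    f = ∑ j, (inner ℝ (e j) f : ℝ) • e j := by
  induction hf using Submodule.span_induction with
  | mem x hx =>
    obtain ⟨i, rfl⟩ := hx
    rw [orthonormal_iff_ite] at he
    simp [he]
  | zero => simp
  | add x y _ _ hx hy =>
    conv_lhs => rw [hx, hy]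
    simp only [inner_add_right, add_smul, Finset.sum_add_distrib]
  | smul a x _ hx =>
    conv_lhs => rw [hx]
    simp only [inner_smul_right, mul_smul, Finset.smul_sum]

theorem norm_span {n m : ℕ} (e : Fin m → EuclideanSpace ℝ (Fin n)) (he : Orthonormal ℝ e)
    (f : EuclideanSpace ℝ (Fin n)) (hf : f ∈ Submodule.span ℝ (Set.range e)) :
    ∑ j, (inner ℝ (e j) f : ℝ) ^ 2 = ‖f‖ ^ 2 := by
  have h := expand_span e he f hf
  rw [← real_inner_self_eq_norm_sq]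
  conv_rhs => rw [h]
  rw [inner_sum]
  simp only [sum_inner, inner_smul_left, inner_smul_right]
  rw [orthonormal_iff_ite] at he
  simp [he, sq]

end Pool.Agent.Helper149.Beps
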